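import Mathlib

namespace Pool.Agent.Results.MP_2c9be0_lc.Separate

open Matrix

variable {S σ : Type} [Semiring S]

def Computed (f : List σ → S) : Prop :=
  ∃ (n : ℕ) (α β : Fin n → S) (M : σ → Matrix (Fin n) (Fin n) S),
    ∀ w, f w = α ⬝ᵥ ((w.map M).prod *ᵥ β)

def Lam (f : List σ → S) (Q : Finset (List σ)) (T : Set (List σ)) :
    Set ((Q → S) × (Q × σ × Q → S)) :=
  {l | ∀ w ∈ T, f w = ∑ q : Q, l.1 q * f (q ++ w) ∧
    ∀ (q : Q) (a : σ), f (q ++ a :: w) = ∑ p : Q, l.2 (q, a, p) * f (p ++ w)}

def Gam (f : List σ → S) (Q : Set (List σ)) (T : Finset (List σ)) :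
    Set ((T → S) × (T × σ × T → S)) :=
  {g | ∀ w ∈ Q, f w = ∑ t : T, f (w ++ t) * g.1 t ∧
    ∀ (t : T) (a : σ), f (w ++ a :: t) = ∑ s : T, f (w ++ s) * g.2 (s, a, t)}

def Guessable (f : List σ → S) : Prop :=
  ∃ Q T : Finset (List σ), Q.Nonempty ∧ Lam f Q T = Lam f Q Set.univ ∧
    (Lam f Q Set.univ).Nonempty

def StronglyGuessable (f : List σ → S) : Prop :=
  Guessable f ∧ ∀ Q : Finset (List σ), Q.Nonempty →
    ∃ T : Finset (List σ), Lam f Q T = Lam f Q Set.univ

def CoGuessable (f : List σ → S) : Prop :=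
  ∃ Q T : Finset (List σ), T.Nonempty ∧ Gam f Q T = Gam f Set.univ T ∧
    (Gam f Set.univ T).Nonempty

def StronglyCoGuessable (f : List σ → S) : Prop :=
  CoGuessable f ∧ ∀ T : Finset (List σ), T.Nonempty →
    ∃ Q : Finset (List σ), Gam f Q T = Gam f Set.univ T

structure Data (S : Type) [Semiring S] where
  s : ℕ → S
  μ : S
  x : ℕ → S
  step : ∀ n, μ * s n = s (n + 1)
  u0 : ∀ y, s 0 = y * s 0 → s 1 = y * s 1 → y = 1
  u1 : ∀ y, s 1 = y * s 0 → s 2 = y * s 1 → y = μ
  xk : ∀ k n, n < k → x k * s n = s (n + 2)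
  xn : ∀ k, x (k + 1) * s (k + 1) ≠ s (k + 3)

def Mo : Submonoid (Function.End ℕ) where
  carrier := {x | x = id ∨ x = Nat.succ ∨ (∀ n, 2 ≤ x n) ∨ ∃ c, ∀ n, x n = c}
  one_mem' := Or.inl rfl
  mul_mem' := by
    rintro x y hx hy
    rcases hx with rfl | rfl | hx | ⟨c, hx⟩
    · exact hy
    · rcases hy with rfl | rfl | hy | ⟨c, hy⟩
      · exact Or.inr (Or.inl rfl)
      · exact Or.inr (Or.inr (Or.inl fun n => Nat.succ_le_succ (Nat.succ_le_succ n.zero_le)))
      · exact Or.inr (Or.inr (Or.inl fun n => (hy n).trans (Nat.le_succ _)))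
      · exact Or.inr (Or.inr (Or.inr ⟨c + 1, fun n => congrArg Nat.succ (hy n)⟩))
    · exact Or.inr (Or.inr (Or.inl fun n => hx _))
    · exact Or.inr (Or.inr (Or.inr ⟨c, fun n => hx _⟩))

def cst (n : ℕ) : Mo := ⟨fun _ => n, Or.inr (Or.inr (Or.inr ⟨n, fun _ => rfl⟩))⟩
def suc : Mo := ⟨Nat.succ, Or.inr (Or.inl rfl)⟩
def xx (k : ℕ) : Mo := ⟨fun n => if n < k then n + 2 else 2,
  Or.inr (Or.inr (Or.inl fun n => by dsimp only; split_ifs <;> omega))⟩

lemma mul_cst (y : Mo) (n : ℕ) : y * cst n = cst (y.1 n) := rfl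

lemma cst_inj {m n : ℕ} (h : cst m = cst n) : m = n := congrFun (congrArg Subtype.val h) 0

lemma solve (y : SetSemiring Mo) (z : Mo) (a b : ℕ)
    (h0 : Set.up {cst a} = y * Set.up {cst 0}) (h1 : Set.up {cst b} = y * Set.up {cst 1})
    (hz : ∀ m : Mo, m.1 0 = a → m.1 1 = b → m = z) : y = Set.up {z} := by
  have k0 : ({cst a} : Set Mo) = Set.image2 (· * ·) y.down {cst 0} := h0
  have k1 : ({cst b} : Set Mo) = Set.image2 (· * ·) y.down {cst 1} := h1
  have hall : ∀ m ∈ y.down, m = z := fun m hm => by
    apply hz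
    · have : m * cst 0 ∈ ({cst a} : Set Mo) := k0 ▸ Set.mem_image2_of_mem hm rfl
      exact cst_inj this
    · have : m * cst 1 ∈ ({cst b} : Set Mo) := k1 ▸ Set.mem_image2_of_mem hm rfl
      exact cst_inj this
  have : cst a ∈ Set.image2 (· * ·) y.down {cst 0} := k0 ▸ rfl
  obtain ⟨m, hm, -⟩ := this
  have e : y.down = {z} := Set.eq_singleton_iff_unique_mem.2 ⟨hall m hm ▸ hm, hall⟩
  rw [← e]; rfl

lemma up_mul (a b : Mo) : Set.up {a} * Set.up {b} = Set.up {a * b} :=
  congrArg Set.up (Set.image2_singleton (f := (· * ·)))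

noncomputable def data : Data (SetSemiring Mo) where
  s n := Set.up {cst n}
  μ := Set.up {suc}
  x k := Set.up {xx k}
  step n := up_mul _ _
  u0 y h0 h1 := solve y 1 0 1 h0 h1 fun m a b => by
    obtain ⟨m, rfl | rfl | h | ⟨c, h⟩⟩ := m
    · rfl
    · simp at a
    · have := h 0; dsimp only at a; omega
    · have := h 0; have := h 1; dsimp only at a b; omega
  u1 y h0 h1 := solve y suc 1 2 h0 h1 fun m a b => by
    obtain ⟨m, rfl | rfl | h | ⟨c, h⟩⟩ := m
    · simp at a
    · rfl
    · have := h 0; dsimp only at a; omega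
    · have := h 0; have := h 1; dsimp only at a b; omega
  xk k n h := by rw [up_mul, mul_cst]; simp [xx, h]
  xn k h := by
    rw [up_mul, mul_cst] at h
    have := cst_inj (Set.singleton_injective (Set.up.injective h))
    simp [xx] at this

lemma bound (T : Finset (List Unit)) : ∃ k, ∀ w ∈ T, w.length < k + 1 :=
  ⟨T.sup List.length, fun _ hw => Nat.lt_succ_of_le (Finset.le_sup hw)⟩

lemma rows (D : Data S) : Computed (fun w : List Unit => D.s w.length) ∧
    Guessable (fun w : List Unit => D.s w.length) ∧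
    ¬ StronglyGuessable (fun w : List Unit => D.s w.length) := by
  refine ⟨⟨1, fun _ => 1, fun _ => D.s 0, fun _ => of fun _ _ => D.μ, fun w => ?_⟩,
    ⟨{[]}, {[], [()]}, by simp, ?_, ⟨(fun _ => 1, fun _ => D.μ), ?_⟩⟩, fun h => ?_⟩
  · have : ∀ w : List Unit, (w.map fun _ => (of fun _ _ => D.μ : Matrix (Fin 1) (Fin 1) S)).prod *ᵥ
        (fun _ => D.s 0) = fun _ => D.s w.length := by
      intro w
      induction w with
      | nil => simp
      | cons a w ih =>
        rw [List.map_cons, List.prod_cons, ← mulVec_mulVec, ih]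
        ext; simp [mulVec, dotProduct, D.step]
    rw [this]; simp [dotProduct]
  · refine Set.Subset.antisymm (fun l hl => ?_) fun l hl w _ => hl w trivial
    have h0 := hl [] (by simp)
    have h1 := hl [()] (by simp)
    simp only [Finset.univ_unique, Finset.sum_singleton, Subtype.forall, Finset.mem_singleton,
      Finset.default_singleton, List.nil_append] at h0 h1
    have e0 := D.u0 _ h0.1 h1.1
    have e1 := D.u1 _ (h0.2 [] rfl ()) (h1.2 [] rfl ())
    intro w _
    simp only [Finset.univ_unique, Finset.sum_singleton, Subtype.forall, Finset.mem_singleton,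
      Finset.default_singleton, List.nil_append]
    refine ⟨by rw [e0, one_mul], ?_⟩
    rintro q rfl ⟨⟩
    rw [e1, D.step]; rfl
  · intro w _
    simp only [Finset.univ_unique, Finset.sum_singleton, Subtype.forall, Finset.mem_singleton,
      Finset.default_singleton, List.nil_append, one_mul, true_and]
    rintro q rfl ⟨⟩
    rw [D.step]; rfl
  · obtain ⟨T, hT⟩ := h.2 {[], [()]} (by simp)
    obtain ⟨k, hk⟩ := bound T
    have hs : ∀ g : List Unit → S,
        ∑ q : ({[], [()]} : Finset (List Unit)), g q = g [] + g [()] := fun g => by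
      rw [Finset.sum_coe_sort, Finset.sum_pair (by simp)]
    let c : List Unit → List Unit → S := fun q p =>
      if q = [] then (if p = [] then 0 else 1) else (if p = [] then D.x (k + 1) else 0)
    have : ((fun q => if q.1 = [] then 1 else 0, fun t => c t.1 t.2.2) :
        (({[], [()]} : Finset (List Unit)) → S) × _) ∈
        Lam (fun w : List Unit => D.s w.length) {[], [()]} T := by
      intro w hw
      refine ⟨?_, ?_⟩
      · rw [hs fun q => (if q = [] then 1 else 0) * D.s (q ++ w).length]; simp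
      · rintro ⟨q, hq⟩ ⟨⟩
        rw [hs fun p => c q p * D.s (p ++ w).length]
        simp only [Finset.mem_insert, Finset.mem_singleton] at hq
        rcases hq with rfl | rfl
        · simp [c]
        · simp [c, D.xk _ _ (hk w hw)]
    rw [hT] at this
    have h2 := (this (List.replicate (k + 1) ()) trivial).2 ⟨[()], by simp⟩ ()
    rw [hs fun p => c [()] p * D.s (p ++ List.replicate (k + 1) ()).length] at h2
    simp only [c, List.cons_append, List.nil_append, List.length_cons, List.length_replicate,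
      reduceCtorEq, if_false, if_true, zero_mul, add_zero] at h2
    exact D.xn k h2.symm

open MulOpposite in
lemma cols (D : Data S) : Computed (fun w : List Unit => op (D.s w.length)) ∧
    CoGuessable (fun w : List Unit => op (D.s w.length)) ∧
    ¬ StronglyCoGuessable (fun w : List Unit => op (D.s w.length)) := by
  refine ⟨⟨1, fun _ => op (D.s 0), fun _ => 1, fun _ => of fun _ _ => op D.μ, fun w => ?_⟩,
    ⟨{[], [()]}, {[]}, by simp, ?_, ⟨(fun _ => 1, fun _ => op D.μ), ?_⟩⟩, fun h => ?_⟩
  · have : ∀ (w : List Unit) (n : ℕ), (fun _ => op (D.s n)) ⬝ᵥ ((w.map fun _ =>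
        (of fun _ _ => op D.μ : Matrix (Fin 1) (Fin 1) Sᵐᵒᵖ)).prod *ᵥ (fun _ => 1)) =
        op (D.s (n + w.length)) := by
      intro w
      induction w with
      | nil => simp [dotProduct]
      | cons a w ih =>
        intro n
        rw [List.map_cons, List.prod_cons, ← mulVec_mulVec, dotProduct_mulVec]
        have : vecMul (fun _ => op (D.s n)) (of fun _ _ => op D.μ : Matrix (Fin 1) (Fin 1) Sᵐᵒᵖ) =
            fun _ => op (D.s (n + 1)) := by
          ext; simp [vecMul, dotProduct, ← op_mul, D.step]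
        rw [this, ih, List.length_cons]; congr 2; omega
    rw [this]; simp
  · refine Set.Subset.antisymm (fun l hl => ?_) fun l hl w _ => hl w trivial
    have h0 := hl [] (by simp)
    have h1 := hl [()] (by simp)
    simp only [Finset.univ_unique, Finset.sum_singleton, Subtype.forall, Finset.mem_singleton,
      Finset.default_singleton, List.nil_append, List.append_nil] at h0 h1
    have e0 := D.u0 _ (congrArg unop h0.1) (congrArg unop h1.1)
    have e1 := D.u1 _ (congrArg unop (h0.2 [] rfl ())) (congrArg unop (h1.2 [] rfl ()))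
    intro w _
    simp only [Finset.univ_unique, Finset.sum_singleton, Subtype.forall, Finset.mem_singleton,
      Finset.default_singleton, List.append_nil]
    refine ⟨unop_injective (by rw [unop_mul, e0, one_mul]), ?_⟩
    rintro q rfl ⟨⟩
    apply unop_injective
    rw [unop_mul, e1]
    simp [D.step]
  · intro w _
    simp only [Finset.univ_unique, Finset.sum_singleton, Subtype.forall, Finset.mem_singleton,
      Finset.default_singleton, List.append_nil, mul_one, true_and]
    rintro q rfl ⟨⟩
    rw [← op_mul, D.step]; simp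
  · obtain ⟨T, hT⟩ := h.2 {[], [()]} (by simp)
    obtain ⟨k, hk⟩ := bound T
    have hs : ∀ g : List Unit → Sᵐᵒᵖ,
        ∑ q : ({[], [()]} : Finset (List Unit)), g q = g [] + g [()] := fun g => by
      rw [Finset.sum_coe_sort, Finset.sum_pair (by simp)]
    let c : List Unit → List Unit → Sᵐᵒᵖ := fun q p =>
      if q = [] then (if p = [] then 0 else 1) else (if p = [] then op (D.x (k + 1)) else 0)
    have : ((fun q => if q.1 = [] then 1 else 0, fun t => c t.2.2 t.1) :
        (({[], [()]} : Finset (List Unit)) → Sᵐᵒᵖ) × _) ∈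
        Gam (fun w : List Unit => op (D.s w.length)) T {[], [()]} := by
      intro w hw
      refine ⟨?_, ?_⟩
      · rw [hs fun q => op (D.s (w ++ q).length) * (if q = [] then 1 else 0)]; simp
      · rintro ⟨q, hq⟩ ⟨⟩
        rw [hs fun p => op (D.s (w ++ p).length) * c q p]
        simp only [Finset.mem_insert, Finset.mem_singleton] at hq
        rcases hq with rfl | rfl
        · simp [c]
        · simp [c, ← op_mul, D.xk _ _ (hk w hw)]
    rw [hT] at this
    have h2 := (this (List.replicate (k + 1) ()) trivial).2 ⟨[()], by simp⟩ ()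
    rw [hs fun p => op (D.s (List.replicate (k + 1) () ++ p).length) * c [()] p] at h2
    simp only [c, List.length_append, List.append_nil, List.length_cons, List.length_replicate,
      reduceCtorEq, if_false, if_true, mul_zero, add_zero, List.length_nil, ← op_mul,
      op_inj] at h2
    exact D.xn k h2.symm

theorem result :
    (∃ (S : Type) (_ : Semiring S) (f : List Unit → S),
      Computed f ∧ Guessable f ∧ ¬ StronglyGuessable f) ∧
    (∃ (S : Type) (_ : Semiring S) (f : List Unit → S),
      Computed f ∧ CoGuessable f ∧ ¬ StronglyCoGuessable f) :=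
  ⟨⟨_, _, _, rows data⟩, ⟨_, _, _, cols data⟩⟩

end Pool.Agent.Results.MP_2c9be0_lc.Separate
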